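import Pool.Agent.CYG.N.Fin

/-!
Honeycomb lattice on a cylinder, every number `l` of paths: `l` independent critical self-avoiding paths which start at
`l` different vertices of one side and cross the cylinder are pairwise disjoint with a probability which decays
exponentially in the length of the cylinder, and the rate times the circumference tends to the value predicted by the
Coulomb gas and by conformal field theory, with the watermelon exponents `x_l = (9 l^2 - 4) / 48`.
-/

namespace Pool.Agent.Results.MP_8c6f77_pr.Watermelon

open Pool.Agent.CYL.Plane

/-- Let `PD L N c` be the probability that `l` independent critical self-avoiding paths across `N` columns of the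
honeycomb lattice on the cylinder of circumference `√3 L`, started at the vertices `i √3 c_j` of the side, are pairwise
disjoint. For every `l ≥ 1`, `-log (PD L N c) / N` has a limit `κ L` as `N → ∞` for all `L > l` and all `c` with entries
pairwise different mod `L`, and `L κ L → ((9 l^2 - 5 l - 4) / 48) √3 π` as `L → ∞`. -/
theorem result {l : ℕ} (hl : 1 ≤ l) : ∃ κ : ℕ → ℝ,
    (∀ L : ℕ, l < L → ∀ c : Fin l → ℤ, (∀ j k, j ≠ k → ¬ (L : ℤ) ∣ c j - c k) →
      Filter.Tendsto (fun N : ℕ => -Real.log (PD L N c) / N) Filter.atTop (nhds (κ L))) ∧
    Filter.Tendsto (fun L : ℕ => (L : ℝ) * κ L) Filter.atTop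
      (nhds ((9 * (l : ℝ) ^ 2 - 5 * l - 4) / 48 * Real.sqrt 3 * Real.pi)) :=
  Pool.Agent.CYL.watermelon hl

end Pool.Agent.Results.MP_8c6f77_pr.Watermelon
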